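import Pool.Agent.R447.HKernelOps

/-!
# MP_7489b4_an: second-kind discontinuities under fast Hausdorff approximation

We prove that the rate `O(n^{-1/2})` for the Gauss-Weierstrass and de la Vallée-Poussin operators,
and the rate `O(1 - ρ)` for the Poisson operator, in the Hausdorff distance of completed graphs,
forces a bounded measurable function to be continuous; the rate is only needed along a
(sub)sequence. In particular no function with a discontinuity of the second kind has such a rate.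

Method. Let `M` and `m` be the upper and lower envelope of `f` at `x₀` and `σ` the width of the
kernel. The point `(x₀, M)` is within `C σ` of the graph of `T f`, so `T f (y) ≥ M - C σ` for some
`y` within `O(σ)` of `x₀`. As `f ≤ M + δ` near `x₀`, the average of `M + δ - f` against the
kernel centred at `y` is at most `δ + O(σ)`, hence the average of `M + δ - f` over
`[x₀, x₀ + σ]` is at most a fixed multiple of `δ`. The same holds for `f - m + δ`. The sum of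
the two is at least `M - m`, whence `M = m`.
-/

set_option autoImplicit false

namespace Pool.Agent.Results.MP_7489b4_an.RateForcesContinuity

open Filter Topology Set Real MeasureTheory

/-- the lower envelope `min {f(x), liminf_{t → x} f(t)}` -/
noncomputable def lo (f : ℝ → ℝ) (x : ℝ) : ℝ := min (f x) (liminf f (𝓝[≠] x))

/-- the upper envelope `max {f(x), limsup_{t → x} f(t)}` -/
noncomputable def hi (f : ℝ → ℝ) (x : ℝ) : ℝ := max (f x) (limsup f (𝓝[≠] x))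

/-- The completed graph of `f`, with the first coordinate divided by `α`: the metric `ρ_α` on the
plane is the maximum metric of `ℝ × ℝ` after this change of scale. -/
def graph (α : ℝ) (f : ℝ → ℝ) : Set (ℝ × ℝ) :=
  (fun p : ℝ × ℝ => (p.1 / α, p.2)) '' {p | lo f p.1 ≤ p.2 ∧ p.2 ≤ hi f p.1}

/-- the Hausdorff distance of the completed graphs with respect to `ρ_α` -/
noncomputable def r (α : ℝ) (f g : ℝ → ℝ) : ℝ := Metric.hausdorffDist (graph α f) (graph α g)

/-- the Gauss-Weierstrass operator -/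
noncomputable def W (n : ℕ) (f : ℝ → ℝ) (x : ℝ) : ℝ :=
  √(n / π) * ∫ s, f (x + s) * exp (-(n * s ^ 2))

/-- the Poisson operator -/
noncomputable def P (ρ : ℝ) (f : ℝ → ℝ) (x : ℝ) : ℝ :=
  1 / (2 * π) * ∫ s in (-π)..π, f (x + s) * ((1 - ρ ^ 2) / (1 + ρ ^ 2 - 2 * ρ * cos s))

/-- the de la Vallée-Poussin operator -/
noncomputable def V (n : ℕ) (f : ℝ → ℝ) (x : ℝ) : ℝ :=
  (n.factorial : ℝ) ^ 2 / ((2 * n).factorial : ℝ) * (1 / (2 * π)) *
    ∫ s in (-π)..π, f (x + s) * (2 * cos (s / 2)) ^ (2 * n)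

/-- condition (W): `limsup √n r(α; f, W_n f) < ∞` -/
def CondW (α : ℝ) (f : ℝ → ℝ) : Prop :=
  ∃ C : ℝ, ∀ᶠ n : ℕ in atTop, √n * r α f (W n f) ≤ C

/-- condition (P): `limsup_{ρ → 1-} r(α; f, P_ρ f) / (1 - ρ) < ∞` -/
def CondP (α : ℝ) (f : ℝ → ℝ) : Prop :=
  ∃ C : ℝ, ∀ᶠ ρ : ℝ in 𝓝[<] 1, r α f (P ρ f) / (1 - ρ) ≤ C

/-- condition (V): `limsup √n r(α; f, V_n f) < ∞` -/
def CondV (α : ℝ) (f : ℝ → ℝ) : Prop :=
  ∃ C : ℝ, ∀ᶠ n : ℕ in atTop, √n * r α f (V n f) ≤ C

/-- `x` is a point of discontinuity of the second kind -/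
def SecondKind (f : ℝ → ℝ) (x : ℝ) : Prop :=
  ¬ ContinuousAt f x ∧
    ¬ ((∃ a, Tendsto f (𝓝[<] x) (𝓝 a)) ∧ ∃ b, Tendsto f (𝓝[>] x) (𝓝 b))

theorem r_eq (α : ℝ) (f g : ℝ → ℝ) : r α f g = Pool.Agent.R447.HKernel.r α f g := rfl
theorem W_eq (n : ℕ) (f : ℝ → ℝ) : W n f = Pool.Agent.R447.HKernel.W n f := rfl
theorem P_eq (ρ : ℝ) (f : ℝ → ℝ) : P ρ f = Pool.Agent.R447.HKernel.P ρ f := rfl
theorem V_eq (n : ℕ) (f : ℝ → ℝ) : V n f = Pool.Agent.R447.HKernel.V n f := rfl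

/-- **A rate comparable with the width of the kernel forces continuity.** The first part needs the
rate only along a sequence; the second part is the negative answer to the question. -/
theorem result :
    (∀ (α : ℝ) (f : ℝ → ℝ), 0 < α → AEMeasurable f volume → (∃ B, ∀ t, |f t| ≤ B) →
      ((∃ C : ℝ, ∃ᶠ n : ℕ in atTop, √n * r α f (W n f) ≤ C) → Continuous f) ∧
      ((∃ C : ℝ, ∃ᶠ ρ : ℝ in 𝓝[<] 1, r α f (P ρ f) / (1 - ρ) ≤ C) → Continuous f) ∧
      ((∃ C : ℝ, ∃ᶠ n : ℕ in atTop, √n * r α f (V n f) ≤ C) → Continuous f)) ∧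
    ¬ ∃ (α : ℝ) (f : ℝ → ℝ), 0 < α ∧ AEMeasurable f volume ∧ (∃ B, ∀ t, |f t| ≤ B) ∧
      (∃ x, SecondKind f x) ∧
      (CondW α f ∨ (Function.Periodic f (2 * π) ∧ CondP α f) ∨
        (Function.Periodic f (2 * π) ∧ CondV α f)) := by
  have h : ∀ (α : ℝ) (f : ℝ → ℝ), 0 < α → AEMeasurable f volume → (∃ B, ∀ t, |f t| ≤ B) →
      ((∃ C : ℝ, ∃ᶠ n : ℕ in atTop, √n * r α f (W n f) ≤ C) → Continuous f) ∧
      ((∃ C : ℝ, ∃ᶠ ρ : ℝ in 𝓝[<] 1, r α f (P ρ f) / (1 - ρ) ≤ C) → Continuous f) ∧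
      ((∃ C : ℝ, ∃ᶠ n : ℕ in atTop, √n * r α f (V n f) ≤ C) → Continuous f) := by
    rintro α f hα hf ⟨B, hB⟩
    refine ⟨?_, ?_, ?_⟩
    · rintro ⟨C, hC⟩
      exact Pool.Agent.R447.HKernel.continuous_of_W hα hf hB hC
    · rintro ⟨C, hC⟩
      exact Pool.Agent.R447.HKernel.continuous_of_P hα hf hB hC
    · rintro ⟨C, hC⟩
      exact Pool.Agent.R447.HKernel.continuous_of_V hα hf hB hC
  refine ⟨h, ?_⟩
  rintro ⟨α, f, hα, hf, hB, ⟨x, hx⟩, hcond⟩
  obtain ⟨h1, h2, h3⟩ := h α f hα hf hB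
  apply hx.1
  rcases hcond with ⟨C, hC⟩ | ⟨_, C, hC⟩ | ⟨_, C, hC⟩
  · exact (h1 ⟨C, hC.frequently⟩).continuousAt
  · exact (h2 ⟨C, hC.frequently⟩).continuousAt
  · exact (h3 ⟨C, hC.frequently⟩).continuousAt

end Pool.Agent.Results.MP_7489b4_an.RateForcesContinuity
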